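import Mathlib

namespace Pool.Agent.Results.MP_4efd57_nt.Bounded
open Finset

noncomputable def g (n : ℕ) : ℤ := ZMod.χ₄ ((ordCompl[2] n : ℕ) : ZMod 4)

lemma g_mul (m n : ℕ) : g (m * n) = g m * g n := by
  simp only [g, Nat.ordCompl_mul, Nat.cast_mul, map_mul]

lemma g_odd (n : ℕ) (h : n % 2 = 1) : g n = ZMod.χ₄ (n : ZMod 4) := by
  have : n.factorization 2 = 0 := Nat.factorization_eq_zero_of_not_dvd (by omega)
  simp [g, this]

lemma g_pm (n : ℕ) (h : 1 ≤ n) : g n = 1 ∨ g n = -1 := by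
  have h2 : ¬ 2 ∣ ordCompl[2] n := Nat.not_dvd_ordCompl Nat.prime_two (by omega)
  unfold g
  rcases (by omega : ordCompl[2] n % 4 = 1 ∨ ordCompl[2] n % 4 = 3) with h4 | h4
  · exact Or.inl (ZMod.χ₄_nat_one_mod_four h4)
  · exact Or.inr (ZMod.χ₄_nat_three_mod_four h4)

lemma g_cancel (j : ℕ) : g (2 * j + 1) + g (2 * j + 3) = 0 := by
  rw [g_odd _ (by omega), g_odd _ (by omega)]
  rcases (by omega : j % 2 = 0 ∨ j % 2 = 1) with h | h
  · rw [ZMod.χ₄_nat_one_mod_four (by omega), ZMod.χ₄_nat_three_mod_four (by omega)]; norm_num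
  · rw [ZMod.χ₄_nat_three_mod_four (by omega), ZMod.χ₄_nat_one_mod_four (by omega)]; norm_num

lemma even_sum (j : ℕ) : ∑ k ∈ Icc 1 (2 * j), g k * g (k + 1) = 0 := by
  induction j with
  | zero => simp
  | succ j ih =>
    rw [show 2 * (j + 1) = 2 * j + 1 + 1 by ring, sum_Icc_succ_top (by omega),
      sum_Icc_succ_top (by omega), ih]
    have := g_cancel j
    rw [show 2 * j + 3 = 2 * j + 1 + 1 + 1 by ring] at this
    linear_combination g (2 * j + 1 + 1) * this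

lemma bound (n : ℕ) : |∑ k ∈ Icc 1 n, g k * g (k + 1)| ≤ 1 := by
  rcases Nat.even_or_odd' n with ⟨j, rfl | rfl⟩
  · rw [even_sum]; norm_num
  · rw [sum_Icc_succ_top (by omega), even_sum]
    rcases g_pm (2 * j + 1) (by omega) with b | b <;>
      rcases g_pm (2 * j + 1 + 1) (by omega) with c | c <;> rw [b, c] <;> norm_num

theorem result : ∃ f : ℕ → ℂ, (∀ n, 1 ≤ n → f n = 1 ∨ f n = -1) ∧
    (∀ m n, f (m * n) = f m * f n) ∧
    ∀ d n, 1 ≤ d → 1 ≤ n → ‖∑ k ∈ Icc 1 n, f (k * d) * f (k * d + d)‖ ≤ 1 := by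
  refine ⟨fun n => (g n : ℂ), fun n h => ?_, fun m n => ?_, fun d n hd _ => ?_⟩
  · rcases g_pm n h with a | a <;> simp [a]
  · simp [g_mul]
  · have e : ∑ k ∈ Icc 1 n, (g (k * d) : ℂ) * (g (k * d + d) : ℂ) =
        ((∑ k ∈ Icc 1 n, g k * g (k + 1) : ℤ) : ℂ) := by
      push_cast
      refine sum_congr rfl fun k _ => ?_
      rw [show k * d + d = (k + 1) * d by ring, g_mul, g_mul]
      rcases g_pm d hd with a | a <;> simp [a]
    simp only [e]
    rw [Complex.norm_intCast]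
    exact_mod_cast bound n

end Pool.Agent.Results.MP_4efd57_nt.Bounded
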